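import Mathlib
import Pool.Agent.TH871.FS.Five2

namespace Pool.Agent.Results.MP_dae7ec_co.FiveSets

/-- `g` is a distance-preserving bijection of `ℤ²` -/
def IsIsometry (g : ℤ × ℤ → ℤ × ℤ) : Prop :=
  Function.Bijective g ∧ ∀ x y, ((g x).1 - (g y).1) ^ 2 + ((g x).2 - (g y).2) ^ 2 =
    (x.1 - y.1) ^ 2 + (x.2 - y.2) ^ 2

/-- A set `S` of five points of `ℤ²` which are pairwise incongruent modulo 5 tiles `ℤ²` under the
isometry group of `ℤ²`, provided that in no labelling `S = {a, b, c, d, e}` an odd multiple of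
`a - b` is an integer multiple of `c + d - 2 e`; translates of `S` and of `-S` suffice. -/
theorem result (S : Finset (ℤ × ℤ)) (hS : S.card = 5)
    (hmod : ∀ x ∈ S, ∀ y ∈ S, (5 : ℤ) ∣ x.1 - y.1 → (5 : ℤ) ∣ x.2 - y.2 → x = y)
    (hgen : ∀ a b c d e : ℤ × ℤ, S = {a, b, c, d, e} →
      ∀ m n : ℤ, Odd m → m • (a - b) ≠ n • (c + d - 2 • e)) :
    ∃ (I : Type) (g : I → ℤ × ℤ → ℤ × ℤ),
      (∀ i, IsIsometry (g i) ∧ ∃ t, (∀ x, g i x = x + t) ∨ (∀ x, g i x = -x + t)) ∧
      (∀ i j, i ≠ j → Disjoint (g i '' (S : Set (ℤ × ℤ))) (g j '' (S : Set (ℤ × ℤ)))) ∧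
      (⋃ i, g i '' (S : Set (ℤ × ℤ))) = Set.univ := by
  set e := S.equivFinOfCardEq hS with he
  set s : Fin 5 → ℤ × ℤ := fun j => ((e.symm j : S) : ℤ × ℤ) with hs
  have sinj : Function.Injective s := Subtype.val_injective.comp e.symm.injective
  have smem : ∀ j, s j ∈ S := fun j => (e.symm j).2
  have ssurj : ∀ x ∈ S, ∃ j, s j = x := fun x hx =>
    ⟨e ⟨x, hx⟩, by simp [hs]⟩
  have hres : Function.Injective fun j => Pool.Agent.TH871.FS.par5 (s j) := by
    intro j k hjk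
    apply sinj
    have h1 := congrArg Prod.fst hjk
    have h2 := congrArg Prod.snd hjk
    have h3 : (((s j).1 : ℤ) : ZMod 5) = (((s k).1 : ℤ) : ZMod 5) := h1
    have h4 : (((s j).2 : ℤ) : ZMod 5) = (((s k).2 : ℤ) : ZMod 5) := h2
    refine hmod _ (smem j) _ (smem k) ?_ ?_
    · have h5 : (((s j).1 - (s k).1 : ℤ) : ZMod 5) = 0 := by rw [Int.cast_sub, h3, sub_self]
      exact_mod_cast (ZMod.intCast_zmod_eq_zero_iff_dvd _ 5).1 h5
    · have h5 : (((s j).2 - (s k).2 : ℤ) : ZMod 5) = 0 := by rw [Int.cast_sub, h4, sub_self]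
      exact_mod_cast (ZMod.intCast_zmod_eq_zero_iff_dvd _ 5).1 h5
  obtain ⟨T, hT⟩ := Pool.Agent.TH871.FS.good5_all hres (by
    intro j k f g h hcov m n hm
    refine hgen (s j) (s k) (s g) (s h) (s f) ?_ m n hm
    ext x
    simp only [Finset.mem_insert, Finset.mem_singleton]
    constructor
    · intro hx
      obtain ⟨i, rfl⟩ := ssurj x hx
      rcases hcov i with rfl | rfl | rfl | rfl | rfl <;> tauto
    · rintro (rfl | rfl | rfl | rfl | rfl) <;> exact smem _)
  have form : ∀ (k : Bool) (t : ℤ × ℤ),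
      IsIsometry (fun x => Pool.Agent.TH871.FS.uB k x + t) ∧
      ∃ t', (∀ x, Pool.Agent.TH871.FS.uB k x + t = x + t') ∨
        (∀ x, Pool.Agent.TH871.FS.uB k x + t = -x + t') := by
    intro k t
    cases k
    · refine ⟨⟨⟨?_, ?_⟩, ?_⟩, t, Or.inr fun x => rfl⟩
      · intro x y hxy
        have : -x + t = -y + t := hxy
        exact neg_injective (add_right_cancel this)
      · intro y
        refine ⟨t - y, ?_⟩
        show -(t - y) + t = y
        abel
      · intro x y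
        show ((-x + t).1 - (-y + t).1) ^ 2 + ((-x + t).2 - (-y + t).2) ^ 2 = _
        simp only [Prod.fst_add, Prod.snd_add, Prod.fst_neg, Prod.snd_neg]
        ring
    · refine ⟨⟨⟨?_, ?_⟩, ?_⟩, t, Or.inl fun x => rfl⟩
      · intro x y hxy
        have : x + t = y + t := hxy
        exact add_right_cancel this
      · intro y
        refine ⟨y - t, ?_⟩
        show y - t + t = y
        abel
      · intro x y
        show ((x + t).1 - (y + t).1) ^ 2 + ((x + t).2 - (y + t).2) ^ 2 = _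
        simp only [Prod.fst_add, Prod.snd_add]
        ring
  refine ⟨{p : Bool × (ℤ × ℤ) // p.2 ∈ T p.1},
    fun i x => Pool.Agent.TH871.FS.uB i.1.1 x + i.1.2, fun i => form _ _, ?_, ?_⟩
  · rintro ⟨⟨k, t⟩, ht⟩ ⟨⟨k', t'⟩, ht'⟩ hne
    rw [Set.disjoint_left]
    rintro y ⟨x, hx, hy⟩ ⟨x', hx', hy'⟩
    apply hne
    obtain ⟨j, rfl⟩ := ssurj x hx
    obtain ⟨j', rfl⟩ := ssurj x' hx'
    simp only at hy hy' ht ht'
    obtain ⟨p, -, hq⟩ := hT y
    have h1 := hq (k, j) (by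
      show y - Pool.Agent.TH871.FS.uB k (s j) ∈ T k
      rw [← hy, add_sub_cancel_left]; exact ht)
    have h2 := hq (k', j') (by
      show y - Pool.Agent.TH871.FS.uB k' (s j') ∈ T k'
      rw [← hy', add_sub_cancel_left]; exact ht')
    rw [← h2] at h1
    simp only [Prod.mk.injEq] at h1
    obtain ⟨rfl, rfl⟩ := h1
    rw [← hy'] at hy
    have h3 := add_left_cancel hy
    subst h3
    rfl
  · rw [Set.eq_univ_iff_forall]
    intro y
    obtain ⟨⟨k, j⟩, hp, -⟩ := hT y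
    rw [Set.mem_iUnion]
    exact ⟨⟨(k, y - Pool.Agent.TH871.FS.uB k (s j)), hp⟩, s j, smem j, by simp⟩

end Pool.Agent.Results.MP_dae7ec_co.FiveSets
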