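import Mathlib
import Pool.Agent.TH871.FS.Line

namespace Pool.Agent.Results.MP_dae7ec_co.FourSets

/-- `g` is a distance-preserving bijection of `ℤ²` -/
def IsIsometry (g : ℤ × ℤ → ℤ × ℤ) : Prop :=
  Function.Bijective g ∧ ∀ x y, ((g x).1 - (g y).1) ^ 2 + ((g x).2 - (g y).2) ^ 2 =
    (x.1 - y.1) ^ 2 + (x.2 - y.2) ^ 2

/-- `g` is a rotation by a multiple of 90 degrees followed by a translation -/
def IsDirect (g : ℤ × ℤ → ℤ × ℤ) : Prop :=
  ∃ (a b : ℤ) (t : ℤ × ℤ), a ^ 2 + b ^ 2 = 1 ∧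
    ∀ x, g x = (a * x.1 - b * x.2 + t.1, b * x.1 + a * x.2 + t.2)

/-- Every set of four points of `ℤ²` tiles `ℤ²` under the isometry group of `ℤ²`; rotations by
multiples of 90 degrees and translations suffice. -/
theorem result (S : Finset (ℤ × ℤ)) (hS : S.card = 4) :
    ∃ (I : Type) (g : I → ℤ × ℤ → ℤ × ℤ),
      (∀ i, IsIsometry (g i) ∧ IsDirect (g i)) ∧
      (∀ i j, i ≠ j → Disjoint (g i '' (S : Set (ℤ × ℤ))) (g j '' (S : Set (ℤ × ℤ)))) ∧
      (⋃ i, g i '' (S : Set (ℤ × ℤ))) = Set.univ := by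
  set e := S.equivFinOfCardEq hS with he
  set s : Fin 4 → ℤ × ℤ := fun j => ((e.symm j : S) : ℤ × ℤ) with hs
  have sinj : Function.Injective s := Subtype.val_injective.comp e.symm.injective
  have smem : ∀ j, s j ∈ (S : Set (ℤ × ℤ)) := fun j => (e.symm j).2
  have ssurj : ∀ x ∈ (S : Set (ℤ × ℤ)), ∃ j, s j = x := fun x hx =>
    ⟨e ⟨x, hx⟩, by simp [hs]⟩
  obtain ⟨T, hT⟩ := Pool.Agent.TH871.FS.good_all sinj
  have form : ∀ k : Fin 4, ∃ a b : ℤ, a ^ 2 + b ^ 2 = 1 ∧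
      ∀ x, Pool.Agent.TH871.FS.u4 k x = (a * x.1 - b * x.2, b * x.1 + a * x.2) := by
    intro k
    fin_cases k
    · exact ⟨1, 0, by norm_num, fun x => by ext <;> simp⟩
    · exact ⟨0, 1, by norm_num, fun x => by ext <;> simp⟩
    · exact ⟨-1, 0, by norm_num, fun x => by ext <;> simp⟩
    · exact ⟨0, -1, by norm_num, fun x => by ext <;> simp⟩
  refine ⟨{p : Fin 4 × (ℤ × ℤ) // p.2 ∈ T p.1},
    fun i x => Pool.Agent.TH871.FS.u4 i.1.1 x + i.1.2, ?_, ?_, ?_⟩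
  · rintro ⟨⟨k, t⟩, -⟩
    obtain ⟨a, b, hab, hu⟩ := form k
    refine ⟨⟨⟨?_, ?_⟩, ?_⟩, ⟨a, b, t, hab, fun x => ?_⟩⟩
    · intro x y hxy
      simp only [hu] at hxy
      have h3 := congrArg Prod.fst hxy
      have h4 := congrArg Prod.snd hxy
      simp only [Prod.fst_add, Prod.snd_add] at h3 h4
      ext
      · linear_combination a * h3 + b * h4 - (x.1 - y.1) * hab
      · linear_combination a * h4 - b * h3 - (x.2 - y.2) * hab
    · intro y
      refine ⟨(a * (y.1 - t.1) + b * (y.2 - t.2), -b * (y.1 - t.1) + a * (y.2 - t.2)), ?_⟩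
      simp only [hu]
      ext
      · simp only [Prod.fst_add]
        linear_combination (y.1 - t.1) * hab
      · simp only [Prod.snd_add]
        linear_combination (y.2 - t.2) * hab
    · intro x y
      simp only [hu, Prod.fst_add, Prod.snd_add]
      linear_combination ((x.1 - y.1) ^ 2 + (x.2 - y.2) ^ 2) * hab
    · simp only [hu]
      rfl
  · rintro ⟨⟨k, t⟩, ht⟩ ⟨⟨k', t'⟩, ht'⟩ hne
    rw [Set.disjoint_left]
    rintro y ⟨x, hx, hy⟩ ⟨x', hx', hy'⟩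
    apply hne
    obtain ⟨j, rfl⟩ := ssurj x hx
    obtain ⟨j', rfl⟩ := ssurj x' hx'
    simp only at hy hy' ht ht'
    obtain ⟨p, -, hq⟩ := hT y
    have h1 := hq (k, j) (by
      show y - Pool.Agent.TH871.FS.u4 k (s j) ∈ T k
      rw [← hy, add_sub_cancel_left]; exact ht)
    have h2 := hq (k', j') (by
      show y - Pool.Agent.TH871.FS.u4 k' (s j') ∈ T k'
      rw [← hy', add_sub_cancel_left]; exact ht')
    rw [← h2] at h1
    simp only [Prod.mk.injEq] at h1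
    obtain ⟨rfl, rfl⟩ := h1
    rw [← hy'] at hy
    have h3 := add_left_cancel hy
    subst h3
    rfl
  · rw [Set.eq_univ_iff_forall]
    intro y
    obtain ⟨⟨k, j⟩, hp, -⟩ := hT y
    rw [Set.mem_iUnion]
    exact ⟨⟨(k, y - Pool.Agent.TH871.FS.u4 k (s j)), hp⟩, s j, smem j, by simp⟩

end Pool.Agent.Results.MP_dae7ec_co.FourSets
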